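import Pool.Agent.Y92.ZX.Stm

/-!
# Project ZX: no wild torsion
-/

set_option autoImplicit false
set_option linter.unusedSectionVars false

open UpperHalfPlane H294ZP Polynomial IsDedekindDomain NumberField

namespace Pool.Agent.Y858.ZX

open Pool.Agent.Y226 Pool.Agent.Y226.ZG Pool.Agent.Y226.ZM Pool.Agent.Y226.ZU Pool.Agent.Y92.ZX

/-- an approximate relation modulo `p` becomes exact after a change of the constant coefficient -/
theorem exact_rel {C : Type} [NormedField C] [IsUltrametricDist C] {p : ℕ} [hpf : Fact p.Prime]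
    {k 𝕜 : Type} [Field k] [Field 𝕜] (red : OO C →+* k)
    (hker : ∀ x : OO C, red x = 0 ↔ ‖(x : C)‖ < 1) (hp1 : ‖(p : C)‖ < 1) (ρ : Nr C p →+* 𝕜)
    (ι : 𝕜 →+* k) (hι : ∀ r : Nr C p, ι (ρ r) = red ⟨r, Nr_le r.2⟩) {d : ℕ}
    {h' : (Nr C p)[X][X]} {h : 𝕜[X][X]} (hmap : h'.map (mapRingHom ρ) = h) (hBD : BD d h')
    {F₁ F₂ : C} (hF : ‖E2 (Nr C p).subtype F₁ F₂ h'‖ ≤ ‖(p : C)‖) :
    ∃ c : ℕ × ℕ → OO C, (∀ m, ((c m : OO C) : C) ∈ Nr C p) ∧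
      (∀ m, red (c m) = ι (cf h m)) ∧
      ∑ m ∈ box d, ((c m : OO C) : C) * F₁ ^ m.1 * F₂ ^ m.2 = 0 := by
  set η : C := E2 (Nr C p).subtype F₁ F₂ h' with hη
  have hη1 : ‖η‖ < 1 := hF.trans_lt hp1
  have hηN : η ∈ Nr C p := by
    refine ⟨hη1.le, 1, one_pos, nsub_le ?_ hF⟩
    rw [norm_pow]
    exact (pow_le_of_le_one (norm_nonneg _) hη1.le (pow_pos hpf.out.pos 1).ne').trans hF
  have hite : ∀ m : ℕ × ℕ, (if m = (0, 0) then η else 0) ∈ Nr C p := fun m => by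
    split_ifs
    · exact hηN
    · exact zero_mem _
  have hite1 : ∀ m : ℕ × ℕ, ‖(if m = (0, 0) then η else 0)‖ < 1 := fun m => by
    split_ifs
    · exact hη1
    · rw [norm_zero]; exact one_pos
  have hmem : ∀ m : ℕ × ℕ, ((cf h' m : Nr C p) : C) - (if m = (0, 0) then η else 0) ∈ Nr C p :=
    fun m => sub_mem (cf h' m).2 (hite m)
  have hred : ∀ m : ℕ × ℕ, red ⟨((cf h' m : Nr C p) : C) - (if m = (0, 0) then η else 0),
      mem_OO.2 (Nr_le (hmem m))⟩ = ι (cf h m) := by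
    intro m
    have e1 : (⟨((cf h' m : Nr C p) : C) - (if m = (0, 0) then η else 0),
        mem_OO.2 (Nr_le (hmem m))⟩ : OO C) =
        ⟨(cf h' m : Nr C p), Nr_le (cf h' m).2⟩ -
          ⟨(if m = (0, 0) then η else 0), mem_OO.2 (hite1 m).le⟩ := rfl
    have e5 : red ⟨(if m = (0, 0) then η else 0), mem_OO.2 (hite1 m).le⟩ = 0 :=
      (hker _).2 (hite1 m)
    rw [e1, map_sub, e5, sub_zero, ← hι, ← hmap, cf_map]
  refine ⟨fun m => ⟨((cf h' m : Nr C p) : C) - (if m = (0, 0) then η else 0),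
    mem_OO.2 (Nr_le (hmem m))⟩, hmem, hred, ?_⟩
  · have e2 := E2_eq_sum hBD (Nr C p).subtype F₁ F₂
    rw [← hη] at e2
    have e3 : ∀ m : ℕ × ℕ, (((cf h' m : Nr C p) : C) - (if m = (0, 0) then η else 0)) *
        F₁ ^ m.1 * F₂ ^ m.2 = (Nr C p).subtype (cf h' m) * F₁ ^ m.1 * F₂ ^ m.2 -
          (if m = (0, 0) then η else 0) := by
      intro m
      by_cases hm : m = (0, 0)
      · rw [if_pos hm, hm]
        simp
      · rw [if_neg hm, sub_zero, sub_zero]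
        rfl
    have e4 : ((0, 0) : ℕ × ℕ) ∈ box d := by simp [box]
    calc ∑ m ∈ box d, (((cf h' m : Nr C p) : C) - (if m = (0, 0) then η else 0)) *
        F₁ ^ m.1 * F₂ ^ m.2 = ∑ m ∈ box d, ((Nr C p).subtype (cf h' m) * F₁ ^ m.1 * F₂ ^ m.2 -
          (if m = (0, 0) then η else 0)) := Finset.sum_congr rfl fun m _ => e3 m
      _ = 0 := by
        rw [Finset.sum_sub_distrib, ← e2, Finset.sum_ite_eq', if_pos e4, sub_self]

section LB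

variable {C : Type} [NormedField C] [IsUltrametricDist C] {p : ℕ} [hpf : Fact p.Prime]
  {k 𝕜 : Type} [Field k] [Field 𝕜] {n N W M d D B : ℕ} (𝓛 : LB C p k 𝕜 n N W M d D B)

include 𝓛 in
theorem LB_p_ne_two : p ≠ 2 := by
  have := 𝓛.b2
  omega

end LB

theorem wild : S_WILD := by
  intro C _ _ p hpf k 𝕜 _ _ n N W M d D B 𝓛 x hx Y j l j' l' hYj hYl hYj' hYl' hj hl hj' hl'
    hjl hjl' hne A B₁ A' B₁' hA hB hB' hAW hBW hAW' hBW' ε₁ ε₂ s hε₁ hε₂ hG₁ hG₂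
  have hp2 : p ≠ 2 := LB_p_ne_two 𝓛
  have hM := 𝓛.hM
  have hxj : x j ≠ 0 := by rw [← hYj]; exact (Y j).ne_zero
  have hxl : x l ≠ 0 := by rw [← hYl]; exact (Y l).ne_zero
  have hxj' : x j' ≠ 0 := by rw [← hYj']; exact (Y j').ne_zero
  have hxl' : x l' ≠ 0 := by rw [← hYl']; exact (Y l').ne_zero
  have hv : Bv M (vec j l A B₁) := Bv_vec (by omega) (by omega) hjl
  have hw : Bv M (vec j' l' A' B₁') := Bv_vec (by omega) (by omega) hjl'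
  have hvw : LI (vec j l A B₁) (vec j' l' A' B₁') := LI_vec hjl hjl' hne hA hB hB'
  have hsupp : ∀ i, vec j l A B₁ i ≠ 0 ∨ vec j' l' A' B₁' i ≠ 0 → ‖x i‖ = 1 := by
    intro i hi
    unfold vec at hi
    by_cases h1 : i = j
    · rw [h1]; exact hj
    · by_cases h2 : i = l
      · rw [h2]; exact hl
      · by_cases h3 : i = j'
        · rw [h3]; exact hj'
        · by_cases h4 : i = l'
          · rw [h4]; exact hl'
          · simp [h1, h2, h3, h4] at hi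
  have hF₁ : ((Y l ^ B₁ * (Y j ^ A)⁻¹ : Cˣ) : C) = ∏ i, x i ^ vec j l A B₁ i := by
    rw [prod_vec x hjl hxj, Units.val_mul, Units.val_pow_eq_pow_val, Units.val_inv_eq_inv_val,
      Units.val_pow_eq_pow_val, hYj, hYl]
  have hF₂ : ((Y l' ^ B₁' * (Y j' ^ A')⁻¹ : Cˣ) : C) = ∏ i, x i ^ vec j' l' A' B₁' i := by
    rw [prod_vec x hjl' hxj', Units.val_mul, Units.val_pow_eq_pow_val, Units.val_inv_eq_inv_val,
      Units.val_pow_eq_pow_val, hYj', hYl']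
  have hrel : ‖E2 (Nr C p).subtype ((Y l ^ B₁ * (Y j ^ A)⁻¹ : Cˣ) : C)
      ((Y l' ^ B₁' * (Y j' ^ A')⁻¹ : Cˣ) : C)
      (𝓛.ht (vec j l A B₁) (vec j' l' A' B₁'))‖ ≤ ‖(p : C)‖ := by
    rw [hF₁, hF₂]
    exact hx.r2 _ _ hv hw hvw hsupp
  obtain ⟨c, hcN, hcr, hc0⟩ := exact_rel 𝓛.red 𝓛.hker 𝓛.hp1 𝓛.ρ 𝓛.ι 𝓛.hι
    (𝓛.hht _ _ hv hw hvw).1 (𝓛.hht _ _ hv hw hvw).2 hrel
  have hNC : NoCoset k d (fun m => 𝓛.red (c m)) := by
    have h1 := 𝓛.𝓡.hNC _ _ hv hw hvw k 𝓛.ι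
    have h2 : (fun m => 𝓛.red (c m)) =
        fun m => 𝓛.ι (cf (𝓛.𝓡.h (vec j l A B₁) (vec j' l' A' B₁')) m) := funext hcr
    rw [h2]
    exact h1
  have hb2 := 𝓛.b2
  obtain ⟨D', h1, h2⟩ := lemW 𝓛.red 𝓛.hker hp2 𝓛.hp0 𝓛.hp1 c hcN hNC (by omega) hc0 hε₁ hε₂
    le_rfl hG₁ hG₂
  have hρ0 : 0 < ‖(ε₁ : C) - 1‖ := PData.root_pos hp2 𝓛.hp1 𝓛.hp0 hε₁
  have hρ1 : ‖(ε₁ : C) - 1‖ < 1 := ppow_root_lt 𝓛.hp1 hε₁.pow_eq_one
  rw [← ppow_root_norm hp2 𝓛.hp1 hε₁] at h2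
  have h3 : p ^ s * (p - 1) ≤ D' := (pow_le_pow_iff_right_of_lt_one₀ hρ0 hρ1).1 h2
  have h4 : (p ^ s * (p - 1)) ^ 2 ≤ 16 * d ^ 2 * p ^ (s + 1) := (Nat.pow_le_pow_left h3 2).trans h1
  obtain ⟨q, hq⟩ : ∃ q, p = q + 1 := ⟨p - 1, by have := hpf.out.two_le; omega⟩
  have h5 : p - 1 = q := by omega
  rw [h5, mul_pow, pow_succ] at h4
  have h6 : 1 ≤ p ^ s := Nat.one_le_pow _ _ hpf.out.pos
  have h7 : p ^ s * (p ^ s * q ^ 2) ≤ p ^ s * (16 * d ^ 2 * p) := by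
    calc p ^ s * (p ^ s * q ^ 2) = (p ^ s) ^ 2 * q ^ 2 := by ring
      _ ≤ 16 * d ^ 2 * (p ^ s * p) := h4
      _ = p ^ s * (16 * d ^ 2 * p) := by ring
  have h8 := Nat.le_of_mul_le_mul_left h7 (by omega)
  have h9 : q ^ 2 ≤ 16 * d ^ 2 * p := by
    calc q ^ 2 = 1 * q ^ 2 := (one_mul _).symm
      _ ≤ p ^ s * q ^ 2 := Nat.mul_le_mul_right _ h6
      _ ≤ _ := h8
  have h10 : 16 * d ^ 2 + 2 ≤ q := by omega
  have h11 : 16 * d ^ 2 * p = 16 * d ^ 2 * (q + 1) := by rw [hq]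
  rw [h11] at h9
  nlinarith

/-- the values of units have norm one -/
theorem e_unit_norm {R : Type} [CommRing R] {C : Type} [NormedField C] {e : PowerSeries R →+* C}
    (hn : ∀ F, ‖e F‖ ≤ 1) (y : (PowerSeries R)ˣ) : ‖e (y : PowerSeries R)‖ = 1 := by
  have h1 : e (y : PowerSeries R) * e ((y⁻¹ : (PowerSeries R)ˣ) : PowerSeries R) = 1 := by
    rw [← map_mul, ← Units.val_mul, mul_inv_cancel, Units.val_one, map_one]
  have h2 := congrArg norm h1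
  rw [norm_mul, norm_one] at h2
  have h3 := hn (y : PowerSeries R)
  have h4 := hn ((y⁻¹ : (PowerSeries R)ˣ) : PowerSeries R)
  have h5 := norm_nonneg (e (y : PowerSeries R))
  nlinarith

theorem wildcm : S_WILDCM := by
  intro C _ _ p hpf k 𝕜 _ _ n N W M d D B 𝓛 Y j l z e hz hC hX hn hzN y y' hYj hYl A B₁ ε s hε hG
  have hp2 : p ≠ 2 := LB_p_ne_two 𝓛
  have hp1 := 𝓛.hp1
  have hB := 𝓛.hB
  have hlt : ∀ {t : ℝ}, 0 ≤ t → t ^ B ≤ ‖(p : C)‖ → t < 1 := by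
    intro t ht h
    by_contra hcon
    push Not at hcon
    have := one_le_pow₀ hcon (n := B)
    linarith
  have hj1 := hlt (norm_nonneg _) hYj
  have hl1 := hlt (norm_nonneg _) hYl
  have hey := e_unit_norm hn y
  have hey' := e_unit_norm hn y'
  have hYjn : ‖(Y j : C)‖ = 1 := neq_one hj1 hey
  have hYln : ‖(Y l : C)‖ = 1 := neq_one hl1 hey'
  set δ : ℝ := max ‖(Y j : C) - e (y : PowerSeries (Nr C p))‖
    ‖(Y l : C) - e (y' : PowerSeries (Nr C p))‖ with hδ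
  have hδ0 : 0 ≤ δ := le_max_of_le_left (norm_nonneg _)
  have hδ1 : δ < 1 := max_lt hj1 hl1
  have hδB : δ ^ B ≤ ‖(p : C)‖ := by
    rcases max_cases ‖(Y j : C) - e (y : PowerSeries (Nr C p))‖
      ‖(Y l : C) - e (y' : PowerSeries (Nr C p))‖ with ⟨h, -⟩ | ⟨h, -⟩
    · rw [hδ, h]; exact hYj
    · rw [hδ, h]; exact hYl
  -- the value of the unit
  have hF0 : e ((y' ^ B₁ * (y ^ A)⁻¹ : (PowerSeries (Nr C p))ˣ) : PowerSeries (Nr C p)) =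
      e (y' : PowerSeries (Nr C p)) ^ B₁ * (e (y : PowerSeries (Nr C p)) ^ A)⁻¹ := by
    have h1 : e ((y⁻¹ : (PowerSeries (Nr C p))ˣ) : PowerSeries (Nr C p)) =
        (e (y : PowerSeries (Nr C p)))⁻¹ := by
      apply eq_inv_of_mul_eq_one_left
      rw [← map_mul, ← Units.val_mul, inv_mul_cancel, Units.val_one, map_one]
    rw [Units.val_mul, Units.val_pow_eq_pow_val, map_mul, map_pow, ← inv_pow y,
      Units.val_pow_eq_pow_val, map_pow, h1, inv_pow]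
  have hF : ‖((Y l ^ B₁ * (Y j ^ A)⁻¹ : Cˣ) : C) -
      e ((y' ^ B₁ * (y ^ A)⁻¹ : (PowerSeries (Nr C p))ˣ) : PowerSeries (Nr C p))‖ ≤ δ := by
    rw [hF0, Units.val_mul, Units.val_pow_eq_pow_val, Units.val_inv_eq_inv_val,
      Units.val_pow_eq_pow_val]
    have hjA : ‖(Y j : C) ^ A - e (y : PowerSeries (Nr C p)) ^ A‖ ≤ δ :=
      npow_sub_pow hYjn.le hey.le (le_max_left _ _) A
    have hlB : ‖(Y l : C) ^ B₁ - e (y' : PowerSeries (Nr C p)) ^ B₁‖ ≤ δ :=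
      npow_sub_pow hYln.le hey'.le (le_max_right _ _) B₁
    have hj0 : (Y j : C) ^ A ≠ 0 := pow_ne_zero _ (Y j).ne_zero
    have he0 : e (y : PowerSeries (Nr C p)) ^ A ≠ 0 :=
      pow_ne_zero _ (norm_pos_iff.1 (by rw [hey]; exact one_pos))
    have hinv : ‖((Y j : C) ^ A)⁻¹ - (e (y : PowerSeries (Nr C p)) ^ A)⁻¹‖ ≤ δ := by
      have e1 : ((Y j : C) ^ A)⁻¹ - (e (y : PowerSeries (Nr C p)) ^ A)⁻¹ =
          -(((Y j : C) ^ A - e (y : PowerSeries (Nr C p)) ^ A) *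
            (((Y j : C) ^ A)⁻¹ * (e (y : PowerSeries (Nr C p)) ^ A)⁻¹)) := by
        field_simp
        ring
      rw [e1, norm_neg]
      refine nmul_le' hjA ?_
      rw [norm_mul, norm_inv, norm_inv, norm_pow, norm_pow, hYjn, hey, one_pow, inv_one, one_mul]
    refine nmul_sub_mul (npow_le hYln.le _) ?_ hlB hinv
    rw [norm_inv, norm_pow, hey, one_pow, inv_one]
  have hu := Loc.unit_coeff (y' ^ B₁ * (y ^ A)⁻¹)
  set r₀ : Nr C p := PowerSeries.coeff 0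
    ((y' ^ B₁ * (y ^ A)⁻¹ : (PowerSeries (Nr C p))ˣ) : PowerSeries (Nr C p)) with hr₀
  have hr1 : ‖(r₀ : C)‖ = 1 := by
    obtain ⟨t, ht⟩ := hu.exists_right_inv
    have h1 := congrArg (fun x : Nr C p => ‖(x : C)‖) ht
    simp only [Subring.coe_mul, norm_mul, Subring.coe_one, norm_one] at h1
    have h2 := Nr_le r₀.2
    have h3 := Nr_le t.2
    have h4 := norm_nonneg (r₀ : C)
    nlinarith
  have hF00 : ‖((Y l ^ B₁ * (Y j ^ A)⁻¹ : Cˣ) : C) - (r₀ : C)‖ ≤ max δ ‖z‖ := by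
    have h1 : ‖e ((y' ^ B₁ * (y ^ A)⁻¹ : (PowerSeries (Nr C p))ˣ) : PowerSeries (Nr C p)) -
        (Nr C p).subtype r₀‖ ≤ ‖z‖ :=
      ev_sub_le (ψ := (Nr C p).subtype) hC hX hn hz.le _
    have e1 : ((Y l ^ B₁ * (Y j ^ A)⁻¹ : Cˣ) : C) - (r₀ : C) =
        (((Y l ^ B₁ * (Y j ^ A)⁻¹ : Cˣ) : C) -
          e ((y' ^ B₁ * (y ^ A)⁻¹ : (PowerSeries (Nr C p))ˣ) : PowerSeries (Nr C p))) +
        (e ((y' ^ B₁ * (y ^ A)⁻¹ : (PowerSeries (Nr C p))ˣ) : PowerSeries (Nr C p)) -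
          (Nr C p).subtype r₀) := by
      rw [Subring.subtype_apply]
      ring
    rw [e1]
    exact nadd_le (hF.trans (le_max_left _ _)) (h1.trans (le_max_right _ _))
  have hρ1 : ‖(ε : C) - 1‖ < 1 := ppow_root_lt hp1 hε.pow_eq_one
  have hρ0 : 0 < ‖(ε : C) - 1‖ := PData.root_pos hp2 hp1 𝓛.hp0 hε
  have h1 := wild_near hp1 r₀.2 hr1 hF00 (max_lt hδ1 hz) hρ1 hG
  have hpN : ∀ {t : ℝ} {m : ℕ}, 0 ≤ t → t < 1 → t ^ m ≤ ‖(p : C)‖ → m ≤ max N B →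
      t ^ max N B ≤ ‖(p : C)‖ := fun ht0 ht1 h hm =>
    (pow_le_pow_of_le_one ht0 ht1.le hm).trans h
  have h2 : ‖(ε : C) - 1‖ ^ max N B ≤ ‖(p : C)‖ := by
    refine (pow_le_pow_left₀ (norm_nonneg _) h1 _).trans ?_
    have hmax : 1 ≤ max N B := (Nat.succ_le_of_lt hB).trans (le_max_right _ _)
    rcases max_cases (max δ ‖z‖) ‖(p : C)‖ with ⟨h, -⟩ | ⟨h, -⟩
    · rw [h]
      rcases max_cases δ ‖z‖ with ⟨h', -⟩ | ⟨h', -⟩
      · rw [h']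
        exact hpN hδ0 hδ1 hδB (le_max_right _ _)
      · rw [h']
        exact hpN (norm_nonneg _) hz hzN (le_max_left _ _)
    · rw [h]
      exact pow_le_of_le_one (norm_nonneg _) hp1.le (by omega)
  rw [← ppow_root_norm hp2 hp1 hε] at h2
  have h3 : p ^ s * (p - 1) ≤ max N B := (pow_le_pow_iff_right_of_lt_one₀ hρ0 hρ1).1 h2
  have h4 : 1 ≤ p ^ s := Nat.one_le_pow _ _ hpf.out.pos
  have h5 := 𝓛.b3
  have h7 := 𝓛.b7
  have h6 : p - 1 ≤ p ^ s * (p - 1) := Nat.le_mul_of_pos_left _ (by omega)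
  have h8 : B ≤ B * (D + 1) := Nat.le_mul_of_pos_right _ (Nat.succ_pos _)
  have h9 : max N B < p - 1 := max_lt (by omega) (by omega)
  omega

end Pool.Agent.Y858.ZX
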